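import Pool.Agent.Y298.EX.Stm

/-!
# The critical point is periodic for a nearby parameter
-/

set_option autoImplicit false

open Set Filter Metric MeasureTheory Topology

namespace Pool.Agent.Y220.EX

open Pool.Agent.TH279.MD Pool.Agent.Y298.SH Pool.Agent.Y298.SH.CD
open Pool.Agent.Y298.EX

theorem gg_zero (d : ℕ) (a : ℂ → ℂ) (w : ℂ) : gg d a 0 w = w := rfl

theorem gg_succ (d : ℕ) (a : ℂ → ℂ) (n : ℕ) (w : ℂ) :
    gg d a (n + 1) w = gg d a n w ^ d + (w + a (gg d a n w)) := by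
  unfold gg
  rw [Function.iterate_succ_apply']
  rfl

theorem gg_diff {d : ℕ} {a : ℂ → ℂ} (ha : Differentiable ℂ a) (n : ℕ) :
    Differentiable ℂ (gg d a n) := by
  induction n with
  | zero => exact differentiable_id
  | succ n ih =>
    have h1 : gg d a (n + 1) = fun w => gg d a n w ^ d + (w + a (gg d a n w)) := by
      funext w
      exact gg_succ d a n w
    rw [h1]
    exact (ih.pow d).add (differentiable_id.add (ha.comp ih))

theorem Pt_mono {a : ℂ → ℂ} {s s' : ℝ} (h : Pt a s) (hs : s ≤ s') : Pt a s' :=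
  ⟨h.hol, fun z hz => (h.le z hz).trans hs, fun z hz => (h.dle z hz).trans hs⟩

theorem root_size {d : ℕ} {c₀ ζ₀ : ℂ} (hd : 2 ≤ d) (h2 : ‖c₀‖ ≤ 2) (h : ζ₀ ^ d = -c₀) :
    min 1 ‖c₀‖ ≤ ‖ζ₀‖ ∧ ‖ζ₀‖ ≤ 2 := by
  have h1 : ‖ζ₀‖ ^ d = ‖c₀‖ := by rw [← norm_pow, h, norm_neg]
  have h0 : 0 ≤ ‖ζ₀‖ := norm_nonneg _
  have hd0 : d ≠ 0 := by omega
  constructor
  · by_contra hcon
    rw [not_le] at hcon
    have h3 : ‖ζ₀‖ < 1 := hcon.trans_le (min_le_left _ _)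
    have h4 : ‖ζ₀‖ < ‖c₀‖ := hcon.trans_le (min_le_right _ _)
    have h5 : ‖ζ₀‖ ^ d ≤ ‖ζ₀‖ := pow_le_of_le_one h0 h3.le hd0
    linarith
  · by_contra hcon
    rw [not_le] at hcon
    have h5 : ‖ζ₀‖ ≤ ‖ζ₀‖ ^ d := le_self_pow₀ (by linarith) hd0
    linarith

theorem t (hR : S_ROOT) (hS : S_SHO) (hH : S_HIT) (hE : S_EXT) : S_PSCH := by
  intro d C₁ lam θ B Ca hd hC₁ hlam hθ hPC c₀ hc
  have hc0 : c₀ ≠ 0 := hc.zz_ne 0
  have hc2 : ‖c₀‖ ≤ 2 := hc.bd 0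
  obtain ⟨δ, hδ⟩ : ∃ δ : ℝ, δ = min 1 ‖c₀‖ := ⟨_, rfl⟩
  have hδ0 : 0 < δ := by
    rw [hδ]
    exact lt_min one_pos (norm_pos_iff.2 hc0)
  obtain ⟨ζ₀, s₁, hζ₀, hs₁, hroot⟩ := hR d c₀ (δ / 8) hd hc0 hc2 (by linarith)
  obtain ⟨CS, hCS, hsho⟩ := hS δ hδ0
  obtain ⟨κg, η, s₂, J, hκg, hη, hη4, hs₂, hs₂1, hhit⟩ :=
    hH d C₁ lam θ B Ca hd hC₁ hlam hθ hPC c₀ hc
  have hsize := root_size hd hc2 hζ₀
  rw [← hδ] at hsize
  refine ⟨32 * CS / κg + 1 / κg, η, min s₁ (min s₂ (δ / 8)), J, by positivity, hη, hη4,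
    lt_min hs₁ (lt_min hs₂ (by linarith)), (min_le_right _ _).trans ((min_le_left _ _).trans hs₂1),
    ?_⟩
  intro a κ s k m hs hss hJ hpass hfur hC hPt hκ
  have hss₁ : s ≤ s₁ := hss.trans (min_le_left _ _)
  have hss₂ : s ≤ s₂ := hss.trans ((min_le_right _ _).trans (min_le_left _ _))
  have hκ1 : ‖κ‖ ≤ s₁ := hκ.trans (min_le_left _ _)
  have hκ2 : ‖κ‖ ≤ δ / 8 := hκ.trans ((min_le_right _ _).trans (min_le_right _ _))
  have hs1 : s ≤ 1 := hss₂.trans hs₂1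
  have hηs : η * s ≤ s := by nlinarith
  obtain ⟨w, hw, hgk, hdk⟩ := hhit a s k hs hss₂ hJ hpass hPt
  have hPd := hc.Pd_pos (k + m)
  -- the constant
  have hC1 : 1 < κg * (s * Pd d c₀ (k + m)) := by
    have h1 : 1 / κg < s * Pd d c₀ (k + m) := by
      have : 0 < 32 * CS / κg := by positivity
      linarith
    rw [div_lt_iff₀ hκg] at h1
    linarith
  have hC2 : 32 * CS < κg * (s * Pd d c₀ (k + m)) := by
    have h1 : 32 * CS / κg < s * Pd d c₀ (k + m) := by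
      have : 0 < 1 / κg := by positivity
      linarith
    rw [div_lt_iff₀ hκg] at h1
    linarith
  have hLL : 4 * LL d ^ m ≤ κg * Pd d c₀ (k + m) := by
    have h1 := hfur.1
    have h2 : s * (4 * LL d ^ m) ≤ s * (κg * Pd d c₀ (k + m)) := by nlinarith
    exact le_of_mul_le_mul_left h2 hs
  rw [mem_ball, dist_eq_norm] at hw
  obtain ⟨hF3, hFd⟩ := hE d c₀ κg s k m a w hd hc.bd hκg hs hs1 (Pt_mono hPt hηs)
    (by linarith) hgk hdk hfur hLL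
  by_contra hcon
  push Not at hcon
  obtain ⟨ζ, hζd, hζ⟩ := hroot a κ (Pt_mono hPt (hηs.trans hss₁)) hκ1
  have hsub : ∀ w' ∈ ball w (s / 8), w' ∈ ball c₀ (s / 4) := by
    intro w' hw'
    rw [mem_ball, dist_eq_norm] at hw' ⊢
    calc ‖w' - c₀‖ = ‖(w' - w) + (w - c₀)‖ := by congr 1; ring
      _ ≤ ‖w' - w‖ + ‖w - c₀‖ := norm_add_le _ _
      _ < s / 4 := by linarith
  have hsub1 : ∀ w' ∈ ball w (s / 8), w' ∈ ball c₀ s₁ := fun w' hw' =>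
    ball_subset_ball (by linarith) (hsub w' hw')
  have hfin := hsho (gg d a (k + m)) ζ w κ ζ₀ (s / 8) (by linarith)
    (gg_diff hPt.hol (k + m)).differentiableOn (hζd.mono fun w' hw' => hsub1 w' hw') hsize.1
    hsize.2 hκ2 (fun w' hw' => (hζ w' (hsub1 w' hw')).1) hF3 (fun w' hw' => by
      refine ⟨hcon w' (hsub w' hw') (k + m) (by omega), fun h => ?_⟩
      apply hcon w' (hsub w' hw') (k + m + 1) le_rfl
      rw [gg_succ, h]
      exact (hζ w' (hsub1 w' hw')).2)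
  have h1 : κg / 4 * Pd d c₀ (k + m) * (s / 8) ≤ CS :=
    (mul_le_mul_of_nonneg_right hFd (by linarith)).trans hfin
  nlinarith

end Pool.Agent.Y220.EX
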